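import Pool.Agent.H525.EX.Stm9

/-! EX/BDB (for helper525): asymptotics with prescribed second coefficient. -/

set_option autoImplicit false

namespace Pool.Agent.H772.EX

open Finset
open Pool.Agent.H525.EX
open scoped Classical

theorem bdb_J_abs (a : ℤ) (b : ℕ) : |jacobiSym a b| ≤ 1 := by
  rcases jacobiSym.trichotomy a b with h | h | h <;> rw [h] <;> simp

theorem bdb_abs_J_mul (a : ℤ) (b : ℕ) {x : ℤ} (hx : 0 ≤ x) : |jacobiSym a b * x| ≤ x := by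
  rw [abs_mul, abs_of_nonneg hx]
  exact mul_le_of_le_one_left hx (bdb_J_abs a b)

/-- the exponents on the left -/
theorem bdb_expL {M f d : ℕ} (hM0 : 0 < M) (hf : f ∣ M) (h2 : f ≠ M) (hd : d ∣ M / f) :
    f + f * ((d - 1) * (M / f / d - 1) / 2) ≤ 2 * M / 3 := by
  obtain ⟨N, hN⟩ := hf
  have hf0 : 0 < f := by
    rcases Nat.eq_zero_or_pos f with h | h
    · rw [h, zero_mul] at hN; omega
    · exact h
  have hq : M / f = N := by
    rw [hN]
    exact Nat.mul_div_cancel_left N hf0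
  rw [hq] at hd ⊢
  have hN1 : N ≠ 1 := by
    rintro rfl
    rw [mul_one] at hN
    exact h2 hN.symm
  have hN0 : N ≠ 0 := by
    rintro rfl
    omega
  obtain ⟨e, he⟩ := hd
  have hd0 : 0 < d := by
    rcases Nat.eq_zero_or_pos d with h | h
    · rw [h, zero_mul] at he; omega
    · exact h
  have he0 : 0 < e := by
    rcases Nat.eq_zero_or_pos e with h | h
    · rw [h, mul_zero] at he; omega
    · exact h
  have hq2 : N / d = e := by
    rw [he]
    exact Nat.mul_div_cancel_left e hd0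
  rw [hq2]
  obtain ⟨x, rfl⟩ : ∃ x, d = x + 1 := ⟨d - 1, by omega⟩
  obtain ⟨y, rfl⟩ : ∃ y, e = y + 1 := ⟨e - 1, by omega⟩
  rw [Nat.add_sub_cancel, Nat.add_sub_cancel]
  have h5 : N = x * y + x + y + 1 := by rw [he]; ring
  have h6 : 1 ≤ x + y := by
    by_contra h
    have hx : x = 0 := by omega
    have hy : y = 0 := by omega
    rw [hx, hy] at h5
    exact hN1 h5
  have h7 : 2 * (x * y / 2) ≤ x * y := Nat.mul_div_le _ _
  have h8 : 3 * (1 + x * y / 2) ≤ 2 * N := by omega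
  have h9 : 3 * (f + f * (x * y / 2)) ≤ 2 * M := by
    calc 3 * (f + f * (x * y / 2)) = f * (3 * (1 + x * y / 2)) := by ring
      _ ≤ f * (2 * N) := Nat.mul_le_mul_left _ h8
      _ = 2 * M := by rw [hN]; ring
  omega

/-- the exponents on the right -/
theorem bdb_expR {M d : ℕ} (_hM0 : 0 < M) (hd : d ∣ M) (h1 : d % 2 = 1) (h2 : d ≠ 1) :
    (M + M / d) / 2 ≤ 2 * M / 3 := by
  obtain ⟨e, he⟩ := hd
  have hd3 : 3 ≤ d := by omega
  have hq : M / d = e := by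
    rw [he]
    exact Nat.mul_div_cancel_left e (by omega)
  rw [hq]
  have h3 : 3 * e ≤ M := by
    rw [he]
    exact Nat.mul_le_mul_right _ hd3
  omega

theorem bdb_inner (Q : ℤ) {M : ℕ} (hM : 0 < M) :
    ∑ d ∈ (M / M).divisors, jacobiSym (-1) d * Q ^ (M * ((d - 1) * (M / M / d - 1) / 2)) = 1 := by
  rw [Nat.div_self hM, Nat.divisors_one, sum_singleton, jacobiSym.one_right, Nat.sub_self, zero_mul,
    Nat.zero_div, mul_zero, pow_zero, one_mul]

theorem bdb_R (κ : ℕ) {M : ℕ} (hM0 : 0 < M) :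
    |Rm κ M - ((2 : ℤ) ^ κ) ^ M| ≤ M * ((2 : ℤ) ^ κ) ^ (2 * M / 3) := by
  obtain ⟨Q, hQ⟩ : ∃ Q : ℤ, Q = 2 ^ κ := ⟨_, rfl⟩
  unfold Rm
  rw [← hQ]
  have hQ1 : 1 ≤ Q := by
    rw [hQ]
    exact one_le_pow₀ (by norm_num)
  have hQ0 : 0 < Q := by linarith
  obtain ⟨B, hB⟩ : ∃ B : ℤ, B = Q ^ (2 * M / 3) := ⟨_, rfl⟩
  have hB0 : 0 < B := by
    rw [hB]
    positivity
  rw [← hB]
  have hm1 : 1 ∈ M.divisors.filter (fun d => d % 2 = 1) :=
    Finset.mem_filter.2 ⟨Nat.one_mem_divisors.2 hM0.ne', rfl⟩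
  rw [← Finset.add_sum_erase _ _ hm1, jacobiSym.one_right, Nat.div_one]
  have e3 : (M + M) / 2 = M := by omega
  rw [e3, one_mul, add_sub_cancel_left]
  refine (Finset.abs_sum_le_sum_abs _ _).trans ?_
  have h1 : ∀ d ∈ (M.divisors.filter (fun d => d % 2 = 1)).erase 1,
      |jacobiSym (-Q ^ M) d * Q ^ ((M + M / d) / 2)| ≤ B := by
    intro d hd
    rw [Finset.mem_erase, Finset.mem_filter, Nat.mem_divisors] at hd
    refine (bdb_abs_J_mul _ _ (by positivity)).trans ?_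
    rw [hB]
    exact pow_le_pow_right₀ hQ1 (bdb_expR hM0 hd.2.1.1 hd.2.2 hd.1)
  refine (Finset.sum_le_card_nsmul _ _ _ h1).trans ?_
  rw [nsmul_eq_mul]
  refine mul_le_mul_of_nonneg_right ?_ hB0.le
  have h2 : ((M.divisors.filter (fun d => d % 2 = 1)).erase 1).card ≤ M :=
    (Finset.card_le_card ((Finset.erase_subset _ _).trans (Finset.filter_subset _ _))).trans
      (Nat.card_divisors_le_self _)
  exact_mod_cast h2

theorem bdb_E (κ : ℕ) (M : ℕ) :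
    |Em κ M| ≤ M * ((2 : ℤ) ^ κ) ^ (2 * M / 3) := by
  obtain ⟨Q, hQ⟩ : ∃ Q : ℤ, Q = 2 ^ κ := ⟨_, rfl⟩
  unfold Em
  rw [← hQ]
  have hQ1 : 1 ≤ Q := by
    rw [hQ]
    exact one_le_pow₀ (by norm_num)
  have hQ0 : 0 < Q := by linarith
  split_ifs with hc
  · rw [abs_mul, abs_of_nonneg (by positivity : (0 : ℤ) ≤ 2 * Q ^ (M / 2))]
    have h1 : |∑ c ∈ (M / 2).divisors, jacobiSym (-1) c| ≤ ((M / 2 : ℕ) : ℤ) := by
      refine (Finset.abs_sum_le_sum_abs _ _).trans ?_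
      refine (Finset.sum_le_card_nsmul _ _ 1 fun c _ => bdb_J_abs _ _).trans ?_
      rw [nsmul_eq_mul, mul_one]
      exact_mod_cast Nat.card_divisors_le_self _
    have h2 : Q ^ (M / 2) ≤ Q ^ (2 * M / 3) := pow_le_pow_right₀ hQ1 (by omega)
    have h3 : 2 * ((M / 2 : ℕ) : ℤ) ≤ M := by
      have : 2 * (M / 2) ≤ M := Nat.mul_div_le _ _
      exact_mod_cast this
    calc 2 * Q ^ (M / 2) * |∑ c ∈ (M / 2).divisors, jacobiSym (-1) c|
        ≤ 2 * Q ^ (M / 2) * ((M / 2 : ℕ) : ℤ) := mul_le_mul_of_nonneg_left h1 (by positivity)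
      _ = (2 * ((M / 2 : ℕ) : ℤ)) * Q ^ (M / 2) := by ring
      _ ≤ M * Q ^ (2 * M / 3) := mul_le_mul h3 h2 (by positivity) (by positivity)
  · rw [abs_zero]
    positivity

theorem bdb_L (κ : ℕ) (p : ℕ → ℕ) (hp : ∀ M, p M ≤ (2 ^ κ) ^ M) {M : ℕ} (hM0 : 0 < M) :
    |Lm κ p M - 2 * M * p M| ≤ 2 * M ^ 2 * ((2 : ℤ) ^ κ) ^ (2 * M / 3) := by
  obtain ⟨Q, hQ⟩ : ∃ Q : ℤ, Q = 2 ^ κ := ⟨_, rfl⟩
  have hpQ : ∀ m, (p m : ℤ) ≤ Q ^ m := by
    intro m
    rw [hQ]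
    exact_mod_cast hp m
  unfold Lm
  rw [← hQ]
  have hQ1 : 1 ≤ Q := by
    rw [hQ]
    exact one_le_pow₀ (by norm_num)
  have hQ0 : 0 < Q := by linarith
  obtain ⟨B, hB⟩ : ∃ B : ℤ, B = Q ^ (2 * M / 3) := ⟨_, rfl⟩
  have hB0 : 0 < B := by
    rw [hB]
    positivity
  rw [← hB]
  have hmM : M ∈ M.divisors.filter (fun f => M / f % 4 = 1) :=
    Finset.mem_filter.2 ⟨Nat.mem_divisors_self _ hM0.ne', by rw [Nat.div_self hM0]⟩
  rw [← Finset.add_sum_erase _ _ hmM, bdb_inner Q hM0, mul_one, add_sub_cancel_left]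
  refine (Finset.abs_sum_le_sum_abs _ _).trans ?_
  have h1 : ∀ f ∈ (M.divisors.filter (fun f => M / f % 4 = 1)).erase M,
      |(2 * f : ℤ) * (p f : ℤ) * ∑ d ∈ (M / f).divisors, jacobiSym (-1) d *
        Q ^ (f * ((d - 1) * (M / f / d - 1) / 2))| ≤ 2 * M * B := by
    intro f hf
    rw [Finset.mem_erase, Finset.mem_filter, Nat.mem_divisors] at hf
    obtain ⟨hf1, ⟨hf2, -⟩, -⟩ := hf
    rw [abs_mul, abs_of_nonneg (by positivity)]
    have h2 : |∑ d ∈ (M / f).divisors, jacobiSym (-1) d *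
        Q ^ (f * ((d - 1) * (M / f / d - 1) / 2))| ≤
        ∑ d ∈ (M / f).divisors, Q ^ (f * ((d - 1) * (M / f / d - 1) / 2)) :=
      (Finset.abs_sum_le_sum_abs _ _).trans
        (Finset.sum_le_sum fun d _ => bdb_abs_J_mul _ _ (by positivity))
    have h3 : (p f : ℤ) * ∑ d ∈ (M / f).divisors,
          Q ^ (f * ((d - 1) * (M / f / d - 1) / 2)) ≤ ((M / f : ℕ) : ℤ) * B := by
      calc (p f : ℤ) * ∑ d ∈ (M / f).divisors, Q ^ (f * ((d - 1) * (M / f / d - 1) / 2))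
          ≤ Q ^ f * ∑ d ∈ (M / f).divisors, Q ^ (f * ((d - 1) * (M / f / d - 1) / 2)) := by
            refine mul_le_mul_of_nonneg_right (hpQ f) (Finset.sum_nonneg fun d _ => ?_)
            positivity
        _ = ∑ d ∈ (M / f).divisors, Q ^ (f + f * ((d - 1) * (M / f / d - 1) / 2)) := by
            rw [Finset.mul_sum]
            exact Finset.sum_congr rfl fun d _ => (pow_add _ _ _).symm
        _ ≤ ∑ d ∈ (M / f).divisors, B := by
            refine Finset.sum_le_sum fun d hd => ?_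
            rw [hB]
            exact pow_le_pow_right₀ hQ1 (bdb_expL hM0 hf2 hf1 (Nat.dvd_of_mem_divisors hd))
        _ = ((M / f).divisors.card : ℤ) * B := by
            rw [Finset.sum_const, nsmul_eq_mul]
        _ ≤ ((M / f : ℕ) : ℤ) * B := by
            refine mul_le_mul_of_nonneg_right ?_ hB0.le
            exact_mod_cast Nat.card_divisors_le_self _
    have h4 : (f : ℤ) * ((M / f : ℕ) : ℤ) = M := by
      exact_mod_cast Nat.mul_div_cancel' hf2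
    calc (2 * f : ℤ) * (p f : ℤ) * |∑ d ∈ (M / f).divisors, jacobiSym (-1) d *
        Q ^ (f * ((d - 1) * (M / f / d - 1) / 2))|
        ≤ (2 * f : ℤ) * (p f : ℤ) * ∑ d ∈ (M / f).divisors,
          Q ^ (f * ((d - 1) * (M / f / d - 1) / 2)) :=
          mul_le_mul_of_nonneg_left h2 (by positivity)
      _ = (2 * f : ℤ) * ((p f : ℤ) * ∑ d ∈ (M / f).divisors,
          Q ^ (f * ((d - 1) * (M / f / d - 1) / 2))) := by ring
      _ ≤ (2 * f : ℤ) * (((M / f : ℕ) : ℤ) * B) := mul_le_mul_of_nonneg_left h3 (by positivity)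
      _ = 2 * (f * ((M / f : ℕ) : ℤ)) * B := by ring
      _ = 2 * M * B := by rw [h4]
  refine (Finset.sum_le_card_nsmul _ _ _ h1).trans ?_
  rw [nsmul_eq_mul]
  have h2 : ((M.divisors.filter (fun f => M / f % 4 = 1)).erase M).card ≤ M :=
    (Finset.card_le_card ((Finset.erase_subset _ _).trans (Finset.filter_subset _ _))).trans
      (Nat.card_divisors_le_self _)
  have h3 : (((M.divisors.filter (fun f => M / f % 4 = 1)).erase M).card : ℤ) ≤ M := by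
    exact_mod_cast h2
  calc _ ≤ (M : ℤ) * (2 * M * B) := mul_le_mul_of_nonneg_right h3 (by positivity)
    _ = _ := by ring

theorem bdb_int (κ : ℕ) (p : ℕ → ℕ) (s δ : ℤ) (M : ℕ) (hκ : 1 ≤ κ) (hM : 1 ≤ M)
    (hp : ∀ f, p f ≤ (2 ^ κ) ^ f) (hs : s = 1 ∨ s = -1) (hδ : δ = 0 ∨ δ = 1)
    (h : (2 : ℤ) ^ κ * Lm κ p M = (1 - s) * Rm κ M - δ * ((2 : ℤ) ^ κ * Em κ M)) :
    |(2 : ℤ) ^ κ * (2 * M * p M) - (1 - s) * ((2 : ℤ) ^ κ) ^ M| ≤
      4 * (M : ℤ) ^ 3 * ((2 : ℤ) ^ κ) ^ (2 * M / 3 + 1) := by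
  have hR := bdb_R κ (M := M) hM
  have hE := bdb_E κ M
  have hL := bdb_L κ p hp (M := M) hM
  obtain ⟨Q, hQ⟩ : ∃ Q : ℤ, Q = 2 ^ κ := ⟨_, rfl⟩
  rw [← hQ] at h hR hE hL ⊢
  have hQ2 : 2 ≤ Q := by
    rw [hQ]
    calc (2 : ℤ) = 2 ^ 1 := by norm_num
      _ ≤ 2 ^ κ := pow_le_pow_right₀ (by norm_num) hκ
  obtain ⟨B, hB⟩ : ∃ B : ℤ, B = Q ^ (2 * M / 3) := ⟨_, rfl⟩
  have hB0 : 0 < B := by
    rw [hB]
    positivity
  rw [pow_succ Q (2 * M / 3), ← hB]
  rw [← hB] at hR hE hL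
  have hMc : (1 : ℤ) ≤ M := by exact_mod_cast hM
  have hR' := abs_le.1 hR
  have hE' := abs_le.1 hE
  have hL' := abs_le.1 hL
  -- the product bounds
  have l1 : Q * (Lm κ p M - 2 * M * p M) ≤ Q * (2 * M ^ 2 * B) :=
    mul_le_mul_of_nonneg_left hL'.2 (by linarith)
  have l2 : Q * (-(2 * M ^ 2 * B)) ≤ Q * (Lm κ p M - 2 * M * p M) :=
    mul_le_mul_of_nonneg_left hL'.1 (by linarith)
  have e1 : Q * Em κ M ≤ Q * (M * B) := mul_le_mul_of_nonneg_left hE'.2 (by linarith)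
  have e2 : Q * (-(M * B)) ≤ Q * Em κ M := mul_le_mul_of_nonneg_left hE'.1 (by linarith)
  have hMB : 0 ≤ (M : ℤ) * B := by positivity
  have k1 : 2 * (M * B) ≤ Q * (M * B) := mul_le_mul_of_nonneg_right hQ2 hMB
  have k2 : 0 ≤ Q * (M * B) := by
    have : 0 ≤ Q := by linarith
    positivity
  -- the final comparison
  have k3 : 2 * (Q * (M ^ 2 * B)) + 2 * (Q * (M * B)) ≤ 4 * (M : ℤ) ^ 3 * (B * Q) := by
    have m1 : (M : ℤ) ≤ M ^ 3 := by
      have : (0 : ℤ) ≤ M * (M - 1) * (M + 1) := by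
        apply mul_nonneg (mul_nonneg (by linarith) (by linarith)) (by linarith)
      nlinarith
    have m2 : (M : ℤ) ^ 2 ≤ M ^ 3 := by
      have : (0 : ℤ) ≤ M ^ 2 * (M - 1) := mul_nonneg (by positivity) (by linarith)
      nlinarith
    have hQB : 0 ≤ Q * B := mul_nonneg (by linarith) hB0.le
    have m3 := mul_le_mul_of_nonneg_right m1 hQB
    have m4 := mul_le_mul_of_nonneg_right m2 hQB
    have m5 : 2 * (Q * ((M : ℤ) ^ 2 * B)) + 2 * (Q * (M * B)) =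
      2 * ((M : ℤ) ^ 2 * (Q * B)) + 2 * ((M : ℤ) * (Q * B)) := by ring
    have m6 : 4 * (M : ℤ) ^ 3 * (B * Q) = 2 * ((M : ℤ) ^ 3 * (Q * B)) +
      2 * ((M : ℤ) ^ 3 * (Q * B)) := by ring
    rw [m5, m6]
    linarith
  have n1 : Q * (Lm κ p M - 2 * M * p M) = Q * Lm κ p M - Q * (2 * M * p M) := by ring
  have n2 : Q * (2 * M ^ 2 * B) = 2 * (Q * (M ^ 2 * B)) := by ring
  have n3 : Q * (-(2 * M ^ 2 * B)) = -(2 * (Q * (M ^ 2 * B))) := by ring
  have n4 : Q * (-(M * B)) = -(Q * (M * B)) := by ring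
  rw [n1, n2] at l1
  rw [n1, n3] at l2
  rw [n4] at e2
  rw [abs_le]
  rcases hs with rfl | rfl <;> rcases hδ with rfl | rfl
  · constructor <;> linarith
  · constructor <;> linarith
  · constructor <;> linarith
  · constructor <;> linarith

theorem t_bdb : S_bdb := by
  intro κ p s δ M hκ hM hp hs hδ h
  have h1 := bdb_int κ p s δ M hκ hM hp hs hδ h
  exact_mod_cast h1

end Pool.Agent.H772.EX
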